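import Pool.Agent.Helper17.CY.CSum

/-!
# CY MERT (Mertens for the primes `p ≡ 1 mod m`)
-/

set_option autoImplicit false

namespace Pool.Agent.Helper17.CY

open ArithmeticFunction

variable {q : ℕ} [NeZero q]

theorem mer_bounded {χ : DirichletCharacter ℂ q} (h : χ ≠ 1) (N : ℕ) :
    ‖∑ n ∈ Finset.Icc 1 N, cc χ n / n * (Real.log n : ℂ)‖ ≤ 2 * q := by
  rcases Nat.eq_zero_or_pos N with h0 | h0
  · subst h0
    simp
  have key : ∀ N : ℕ, 1 ≤ N →
      ‖∑ n ∈ Finset.Icc 1 N, cc χ n / n * (Real.log n : ℂ) -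
        (∑ n ∈ Finset.Icc 1 N, cc χ n) * ((Real.log N / N : ℝ) : ℂ)‖ ≤
        q * (2 - (Real.log N + 2) / N) := by
    intro N hN
    induction N, hN using Nat.le_induction with
    | base => simp
    | succ N hN ih =>
      rw [Finset.sum_Icc_succ_top (by omega), Finset.sum_Icc_succ_top (by omega)]
      have e1 : ∑ n ∈ Finset.Icc 1 N, cc χ n / n * (Real.log n : ℂ) +
          cc χ (N + 1) / ((N + 1 : ℕ) : ℂ) * ((Real.log ((N + 1 : ℕ) : ℝ) : ℝ) : ℂ) -
          (∑ n ∈ Finset.Icc 1 N, cc χ n + cc χ (N + 1)) *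
            ((Real.log ((N + 1 : ℕ) : ℝ) / ((N + 1 : ℕ) : ℝ) : ℝ) : ℂ) =
          (∑ n ∈ Finset.Icc 1 N, cc χ n / n * (Real.log n : ℂ) -
            (∑ n ∈ Finset.Icc 1 N, cc χ n) * ((Real.log N / N : ℝ) : ℂ)) +
          (∑ n ∈ Finset.Icc 1 N, cc χ n) *
            ((Real.log N / N - Real.log ((N + 1 : ℕ) : ℝ) / ((N + 1 : ℕ) : ℝ) : ℝ) : ℂ) := by
        push_cast
        ring
      rw [e1]
      refine (norm_add_le _ _).trans ?_
      rw [norm_mul, Complex.norm_real, Real.norm_eq_abs]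
      have h1 := mul_le_mul (sum_bounded h N) (Pool.Agent.DL.mer_step N hN) (abs_nonneg _)
        (Nat.cast_nonneg q)
      have h2 : (q : ℝ) * (2 - (Real.log N + 2) / N) + q * ((Real.log N + 2) / N -
          (Real.log ((N + 1 : ℕ) : ℝ) + 2) / ((N + 1 : ℕ) : ℝ)) =
          q * (2 - (Real.log ((N + 1 : ℕ) : ℝ) + 2) / ((N + 1 : ℕ) : ℝ)) := by ring
      linarith
  have hN0 : (0 : ℝ) < N := by exact_mod_cast h0
  have hlogN : 0 ≤ Real.log N := Real.log_nonneg (by exact_mod_cast h0)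
  have h1 := key N h0
  have h2 := sum_bounded h N
  have e1 : ∑ n ∈ Finset.Icc 1 N, cc χ n / n * (Real.log n : ℂ) =
      (∑ n ∈ Finset.Icc 1 N, cc χ n / n * (Real.log n : ℂ) -
        (∑ n ∈ Finset.Icc 1 N, cc χ n) * ((Real.log N / N : ℝ) : ℂ)) +
      (∑ n ∈ Finset.Icc 1 N, cc χ n) * ((Real.log N / N : ℝ) : ℂ) := by ring
  rw [e1]
  refine (norm_add_le _ _).trans ?_
  rw [norm_mul, Complex.norm_real, Real.norm_eq_abs,
    abs_of_nonneg (show 0 ≤ Real.log N / N by positivity)]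
  have h3 : ‖∑ n ∈ Finset.Icc 1 N, cc χ n‖ * (Real.log N / N) ≤ q * (Real.log N / N) :=
    mul_le_mul_of_nonneg_right h2 (by positivity)
  have h4 : (q : ℝ) * (2 - (Real.log N + 2) / N) + q * (Real.log N / N) = 2 * q - q * (2 / N) := by
    field_simp
    ring
  have h5 : 0 ≤ (q : ℝ) * (2 / N) := by positivity
  linarith

/-- `Λ(n) χ(n) / n`. -/
noncomputable def merF (χ : DirichletCharacter ℂ q) : ArithmeticFunction ℂ :=
  ⟨fun n => (vonMangoldt n : ℂ) * (cc χ n / n), by simp⟩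

/-- `χ(n) / n`. -/
noncomputable def merG (χ : DirichletCharacter ℂ q) : ArithmeticFunction ℂ :=
  ⟨fun n => cc χ n / n, by simp⟩

theorem mer_mul (χ : DirichletCharacter ℂ q) (n : ℕ) :
    (merF χ * merG χ) n = cc χ n / n * (Real.log n : ℂ) := by
  rw [ArithmeticFunction.mul_apply]
  have h1 : ∀ x ∈ n.divisorsAntidiagonal, merF χ x.1 * merG χ x.2 =
      cc χ n / n * ((vonMangoldt x.1 : ℝ) : ℂ) := by
    intro x hx
    rw [Nat.mem_divisorsAntidiagonal] at hx
    show ((vonMangoldt x.1 : ℝ) : ℂ) * (cc χ x.1 / x.1) * (cc χ x.2 / x.2) = _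
    rw [← hx.1, cc_mul]
    have hx1 : (x.1 : ℂ) ≠ 0 := by
      intro h2
      apply hx.2
      rw [← hx.1, Nat.cast_eq_zero.1 h2, zero_mul]
    have hx2 : (x.2 : ℂ) ≠ 0 := by
      intro h2
      apply hx.2
      rw [← hx.1, Nat.cast_eq_zero.1 h2, mul_zero]
    push_cast
    field_simp
  have h2 := Nat.sum_divisorsAntidiagonal (fun i _ => ((vonMangoldt i : ℝ) : ℂ)) (n := n)
  rw [Finset.sum_congr rfl h1, ← Finset.mul_sum, h2, ← Complex.ofReal_sum, vonMangoldt_sum]

theorem mer_identity (χ : DirichletCharacter ℂ q) (N : ℕ) :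
    ∑ n ∈ Finset.Icc 1 N, cc χ n / n * (Real.log n : ℂ) =
      ∑ k ∈ Finset.Icc 1 N, (((vonMangoldt k : ℝ) : ℂ) * (cc χ k / k)) *
        ∑ m ∈ Finset.Icc 1 (N / k), cc χ m / m := by
  have h1 := sum_Ioc_mul_eq_sum_sum (merF χ) (merG χ) N
  simp_rw [mer_mul] at h1
  exact h1

theorem mertens_char {χ : DirichletCharacter ℂ q} (h : χ ≠ 1) :
    ∃ C : ℝ, 0 ≤ C ∧ ∀ N : ℕ,
      ‖∑ p ∈ (Finset.Icc 1 N).filter Nat.Prime, cc χ p * ((Real.log p / p : ℝ) : ℂ)‖ ≤ C := by
  obtain ⟨L, hL⟩ := exists_L h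
  have hL0 := L_ne_zero h L hL
  have hLpos : 0 < ‖L‖ := norm_pos_iff.2 hL0
  have hlog4 : 0 ≤ Real.log 4 := Real.log_nonneg (by norm_num)
  set C1 : ℝ := (2 * q + 2 * q * (Real.log 4 + 4)) / ‖L‖ with hC1
  have hC1' : 0 ≤ C1 := by positivity
  refine ⟨C1 + (Real.log 4 + 7), by positivity, fun N => ?_⟩
  rcases Nat.eq_zero_or_pos N with h0 | h0
  · subst h0
    simp only [not_le, zero_lt_one,
      Finset.Icc_eq_empty, Finset.filter_empty, Finset.sum_empty, norm_zero]
    positivity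
  have hN0 : (0 : ℝ) < N := by exact_mod_cast h0
  -- the sum over all `k`
  have h1 : ‖∑ k ∈ Finset.Icc 1 N, (((vonMangoldt k : ℝ) : ℂ) * (cc χ k / k))‖ ≤ C1 := by
    have h2 := mer_bounded h N
    rw [mer_identity χ N] at h2
    have h3 : ‖∑ k ∈ Finset.Icc 1 N, (((vonMangoldt k : ℝ) : ℂ) * (cc χ k / k)) *
        ((∑ m ∈ Finset.Icc 1 (N / k), cc χ m / m) - L)‖ ≤ 2 * q * (Real.log 4 + 4) := by
      refine (norm_sum_le _ _).trans ?_
      have h4 : ∀ k ∈ Finset.Icc 1 N, ‖(((vonMangoldt k : ℝ) : ℂ) * (cc χ k / k)) *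
          ((∑ m ∈ Finset.Icc 1 (N / k), cc χ m / m) - L)‖ ≤
          vonMangoldt k * (2 * q / N) := by
        intro k hk
        rw [Finset.mem_Icc] at hk
        have hk0 : (0 : ℝ) < k := by exact_mod_cast hk.1
        have h5 : (N : ℝ) < k * ((N / k : ℕ) + 1) := by
          exact_mod_cast Nat.lt_mul_div_succ N hk.1
        have h6 := hL (N / k)
        rw [norm_mul, norm_mul, Complex.norm_real, Real.norm_eq_abs,
          abs_of_nonneg (vonMangoldt_nonneg (n := k)), norm_div, Complex.norm_natCast]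
        have h7 : 2 * (q : ℝ) / (((N / k : ℕ) : ℝ) + 1) ≤ 2 * q * k / N := by
          rw [div_le_div_iff₀ (by positivity) hN0]
          have : 2 * (q : ℝ) * N ≤ 2 * q * (k * ((N / k : ℕ) + 1)) :=
            mul_le_mul_of_nonneg_left h5.le (by positivity)
          linarith
        calc vonMangoldt k * (‖cc χ k‖ / k) *
              ‖(∑ m ∈ Finset.Icc 1 (N / k), cc χ m / m) - L‖
            ≤ vonMangoldt k * (1 / k) * (2 * q * k / N) := by
              refine mul_le_mul ?_ (h6.trans h7) (norm_nonneg _) ?_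
              · refine mul_le_mul_of_nonneg_left ?_ vonMangoldt_nonneg
                exact div_le_div_of_nonneg_right (cc_norm χ k) hk0.le
              · have := vonMangoldt_nonneg (n := k)
                positivity
          _ = vonMangoldt k * (2 * q / N) := by
              field_simp
      refine (Finset.sum_le_sum h4).trans ?_
      rw [← Finset.sum_mul]
      have h5 : ∑ k ∈ Finset.Icc 1 N, vonMangoldt k ≤ (Real.log 4 + 4) * N := by
        have := Chebyshev.psi_le_const_mul_self (x := (N : ℝ)) hN0.le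
        unfold Chebyshev.psi at this
        rw [Nat.floor_natCast] at this
        exact this
      calc (∑ k ∈ Finset.Icc 1 N, vonMangoldt k) * (2 * q / N)
          ≤ ((Real.log 4 + 4) * N) * (2 * q / N) :=
            mul_le_mul_of_nonneg_right h5 (by positivity)
        _ = 2 * q * (Real.log 4 + 4) := by field_simp
    have e1 : L * ∑ k ∈ Finset.Icc 1 N, (((vonMangoldt k : ℝ) : ℂ) * (cc χ k / k)) =
        ∑ k ∈ Finset.Icc 1 N, (((vonMangoldt k : ℝ) : ℂ) * (cc χ k / k)) *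
          (∑ m ∈ Finset.Icc 1 (N / k), cc χ m / m) -
        ∑ k ∈ Finset.Icc 1 N, (((vonMangoldt k : ℝ) : ℂ) * (cc χ k / k)) *
          ((∑ m ∈ Finset.Icc 1 (N / k), cc χ m / m) - L) := by
      rw [← Finset.sum_sub_distrib, Finset.mul_sum]
      refine Finset.sum_congr rfl fun k _ => ?_
      ring
    have h4 : ‖L‖ * ‖∑ k ∈ Finset.Icc 1 N, (((vonMangoldt k : ℝ) : ℂ) * (cc χ k / k))‖ ≤
        2 * q + 2 * q * (Real.log 4 + 4) := by
      rw [← norm_mul, e1]
      refine (norm_sub_le _ _).trans ?_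
      linarith
    rw [hC1, le_div_iff₀ hLpos]
    linarith
  have h2 : ∑ k ∈ Finset.Icc 1 N, (((vonMangoldt k : ℝ) : ℂ) * (cc χ k / k)) =
      ∑ k ∈ (Finset.Icc 1 N).filter Nat.Prime, (((vonMangoldt k : ℝ) : ℂ) * (cc χ k / k)) +
      ∑ k ∈ (Finset.Icc 1 N).filter (fun k => ¬ k.Prime),
        (((vonMangoldt k : ℝ) : ℂ) * (cc χ k / k)) :=
    (Finset.sum_filter_add_sum_filter_not _ _ _).symm
  have h3 : ∑ k ∈ (Finset.Icc 1 N).filter Nat.Prime, (((vonMangoldt k : ℝ) : ℂ) * (cc χ k / k)) =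
      ∑ p ∈ (Finset.Icc 1 N).filter Nat.Prime, cc χ p * ((Real.log p / p : ℝ) : ℂ) := by
    refine Finset.sum_congr rfl fun p hp => ?_
    rw [Finset.mem_filter] at hp
    rw [vonMangoldt_apply_prime hp.2]
    push_cast
    ring
  have h4 : ‖∑ k ∈ (Finset.Icc 1 N).filter (fun k => ¬ k.Prime),
      (((vonMangoldt k : ℝ) : ℂ) * (cc χ k / k))‖ ≤ Real.log 4 + 7 := by
    refine (norm_sum_le _ _).trans ((Finset.sum_le_sum fun k hk => ?_).trans
      (Pool.Agent.DL.mer_powers N h0))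
    rw [Finset.mem_filter, Finset.mem_Icc] at hk
    have hk0 : (0 : ℝ) < k := by exact_mod_cast hk.1.1
    rw [norm_mul, Complex.norm_real, Real.norm_eq_abs,
      abs_of_nonneg (vonMangoldt_nonneg (n := k)), norm_div, Complex.norm_natCast]
    calc vonMangoldt k * (‖cc χ k‖ / k) ≤ vonMangoldt k * (1 / k) := by
          refine mul_le_mul_of_nonneg_left ?_ vonMangoldt_nonneg
          exact div_le_div_of_nonneg_right (cc_norm χ k) hk0.le
      _ = vonMangoldt k / k := by ring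
  have h5 : ∑ p ∈ (Finset.Icc 1 N).filter Nat.Prime, cc χ p * ((Real.log p / p : ℝ) : ℂ) =
      ∑ k ∈ Finset.Icc 1 N, (((vonMangoldt k : ℝ) : ℂ) * (cc χ k / k)) -
      ∑ k ∈ (Finset.Icc 1 N).filter (fun k => ¬ k.Prime),
        (((vonMangoldt k : ℝ) : ℂ) * (cc χ k / k)) := by
    rw [← h3, h2]
    ring
  rw [h5]
  refine (norm_sub_le _ _).trans ?_
  linarith

theorem mertens_principal (m : ℕ) [NeZero m] :
    ∃ C : ℝ, 0 ≤ C ∧ ∀ N : ℕ, 1 ≤ N →
      ‖∑ p ∈ (Finset.Icc 1 N).filter Nat.Prime,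
        cc (1 : DirichletCharacter ℂ m) p * ((Real.log p / p : ℝ) : ℂ) - ((Real.log N : ℝ) : ℂ)‖
        ≤ C := by
  have hB0 : 0 ≤ ∑ p ∈ m.primeFactors, Real.log p / p := Finset.sum_nonneg (fun p _ => by
    have := Real.log_natCast_nonneg p
    positivity)
  refine ⟨3 + ∑ p ∈ m.primeFactors, Real.log p / p, by positivity, fun N hN => ?_⟩
  have e0 : (Finset.Icc 1 N).filter Nat.Prime = Pool.Agent.Helper35.prm 0 N := by
    ext p
    rw [Pool.Agent.Helper35.mem_prm, Finset.mem_filter, Finset.mem_Icc]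
    constructor
    · rintro ⟨⟨h5, h6⟩, h7⟩; exact ⟨⟨by omega, h6⟩, h7⟩
    · rintro ⟨⟨h5, h6⟩, h7⟩; exact ⟨⟨by omega, h6⟩, h7⟩
  have h1 := Pool.Agent.Helper35.mertens_lower N hN
  have h2 := Pool.Agent.Helper35.mertens_upper N hN
  rw [← e0] at h1 h2
  have h3 : ∑ p ∈ (Finset.Icc 1 N).filter Nat.Prime,
      cc (1 : DirichletCharacter ℂ m) p * ((Real.log p / p : ℝ) : ℂ) =
      ((∑ p ∈ ((Finset.Icc 1 N).filter Nat.Prime).filter (fun p => p.Coprime m),
        Real.log p / p : ℝ) : ℂ) := by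
    rw [Finset.sum_filter (p := fun p => Nat.Coprime p m), Complex.ofReal_sum]
    refine Finset.sum_congr rfl fun p _ => ?_
    simp only [cc]
    split_ifs with hc
    · rw [MulChar.one_apply ((ZMod.isUnit_iff_coprime _ _).2 hc), one_mul]
    · rw [MulChar.map_nonunit _ (fun h => hc ((ZMod.isUnit_iff_coprime _ _).1 h)), zero_mul]
      simp
  rw [h3, ← Complex.ofReal_sub, Complex.norm_real, Real.norm_eq_abs]
  have h4 := (Finset.sum_filter_add_sum_filter_not ((Finset.Icc 1 N).filter Nat.Prime)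
    (fun p => p.Coprime m) (fun p : ℕ => Real.log p / (p : ℝ)))
  have h5 : ∑ p ∈ ((Finset.Icc 1 N).filter Nat.Prime).filter (fun p => ¬ p.Coprime m),
      Real.log p / (p : ℝ) ≤ ∑ p ∈ m.primeFactors, Real.log p / p := by
    refine Finset.sum_le_sum_of_subset_of_nonneg ?_ (fun p _ _ => by
      have := Real.log_natCast_nonneg p
      positivity)
    intro p hp
    rw [Finset.mem_filter, Finset.mem_filter] at hp
    rw [Nat.mem_primeFactors]
    refine ⟨hp.1.2, ?_, NeZero.ne m⟩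
    by_contra hcon
    exact hp.2 ((Nat.Prime.coprime_iff_not_dvd hp.1.2).2 hcon)
  have h6 : 0 ≤ ∑ p ∈ ((Finset.Icc 1 N).filter Nat.Prime).filter (fun p => ¬ p.Coprime m),
      Real.log p / (p : ℝ) := Finset.sum_nonneg (fun p _ => by
    have := Real.log_natCast_nonneg p
    positivity)
  rw [abs_le]
  constructor <;> linarith

/-- Mertens' theorem for the primes `p ≡ 1 mod m`. -/
theorem mertens_one (m : ℕ) (hm : 1 ≤ m) :
    ∃ C : ℝ, 0 ≤ C ∧ ∀ N : ℕ, 1 ≤ N →
      |∑ p ∈ (Finset.Icc 1 N).filter (fun p => p.Prime ∧ p % m = 1 % m), Real.log p / p -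
        Real.log N / m.totient| ≤ C := by
  classical
  have : NeZero m := ⟨by omega⟩
  have hall : ∀ χ : DirichletCharacter ℂ m, ∃ C : ℝ, 0 ≤ C ∧ ∀ N : ℕ, 1 ≤ N →
      ‖∑ p ∈ (Finset.Icc 1 N).filter Nat.Prime, cc χ p * ((Real.log p / p : ℝ) : ℂ) -
        (if χ = 1 then ((Real.log N : ℝ) : ℂ) else 0)‖ ≤ C := by
    intro χ
    by_cases h : χ = 1
    · subst h
      obtain ⟨C, h0, hC⟩ := mertens_principal m
      exact ⟨C, h0, fun N hN => by simpa using hC N hN⟩
    · obtain ⟨C, h0, hC⟩ := mertens_char h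
      refine ⟨C, h0, fun N _ => ?_⟩
      rw [if_neg h, sub_zero]
      exact hC N
  choose C hC0 hC using hall
  refine ⟨∑ χ, C χ, Finset.sum_nonneg (fun χ _ => hC0 χ), fun N hN => ?_⟩
  have hφ : 0 < m.totient := Nat.totient_pos.2 (by omega)
  have hφ1 : (1 : ℝ) ≤ m.totient := by exact_mod_cast hφ
  have e1 : ∑ χ : DirichletCharacter ℂ m,
      (∑ p ∈ (Finset.Icc 1 N).filter Nat.Prime, cc χ p * ((Real.log p / p : ℝ) : ℂ) -
        (if χ = 1 then ((Real.log N : ℝ) : ℂ) else 0)) =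
      ((m.totient * (∑ p ∈ (Finset.Icc 1 N).filter (fun p => p.Prime ∧ p % m = 1 % m),
        Real.log p / p) - Real.log N : ℝ) : ℂ) := by
    rw [Finset.sum_sub_distrib, Finset.sum_comm]
    have h1 : ∀ p : ℕ, ∑ χ : DirichletCharacter ℂ m, cc χ p * ((Real.log p / p : ℝ) : ℂ) =
        if p % m = 1 % m then ((m.totient * (Real.log p / p) : ℝ) : ℂ) else 0 := by
      intro p
      rw [← Finset.sum_mul]
      simp only [cc]
      rw [DirichletCharacter.sum_characters_eq]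
      have h2 : ((p : ZMod m) = 1) ↔ p % m = 1 % m := by
        have h3 := ZMod.natCast_eq_natCast_iff' p 1 m
        rw [Nat.cast_one] at h3
        exact h3
      by_cases h4 : p % m = 1 % m
      · rw [if_pos (h2.2 h4), if_pos h4]
        push_cast
        ring
      · rw [if_neg (fun h => h4 (h2.1 h)), if_neg h4, zero_mul]
    simp_rw [h1]
    rw [← Finset.sum_filter, Finset.filter_filter, ← Complex.ofReal_sum, ← Finset.mul_sum]
    simp
  have e2 : ‖((m.totient * (∑ p ∈ (Finset.Icc 1 N).filter (fun p => p.Prime ∧ p % m = 1 % m),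
        Real.log p / p) - Real.log N : ℝ) : ℂ)‖ ≤ ∑ χ, C χ := by
    rw [← e1]
    exact (norm_sum_le _ _).trans (Finset.sum_le_sum fun χ _ => hC χ N hN)
  rw [Complex.norm_real, Real.norm_eq_abs] at e2
  set S := ∑ p ∈ (Finset.Icc 1 N).filter (fun p => p.Prime ∧ p % m = 1 % m), Real.log p / (p : ℝ)
  have e3 : (m.totient : ℝ) * S - Real.log N = m.totient * (S - Real.log N / m.totient) := by
    field_simp
  rw [e3, abs_mul, abs_of_pos (by positivity : (0 : ℝ) < m.totient)] at e2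
  have h9 : |S - Real.log N / m.totient| ≤ m.totient * |S - Real.log N / m.totient| :=
    le_mul_of_one_le_left (abs_nonneg _) hφ1
  exact h9.trans e2

end Pool.Agent.Helper17.CY
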