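import Pool.Agent.DL.Mertens

/-!
# CY CSUM (complex Dirichlet characters: partial sums, `L(1,χ) ≠ 0`)

Complex version of `DL/CharSum`, `DL/LNZ`.
-/

set_option autoImplicit false

namespace Pool.Agent.Helper17.CY

variable {q : ℕ} [NeZero q]

/-- the values of a character on the natural numbers -/
noncomputable def cc (χ : DirichletCharacter ℂ q) (n : ℕ) : ℂ := χ (n : ZMod q)

theorem cc_norm (χ : DirichletCharacter ℂ q) (n : ℕ) : ‖cc χ n‖ ≤ 1 :=
  DirichletCharacter.norm_le_one χ _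

theorem cc_mul (χ : DirichletCharacter ℂ q) (m n : ℕ) : cc χ (m * n) = cc χ m * cc χ n := by
  simp [cc]

theorem cc_one (χ : DirichletCharacter ℂ q) : cc χ 1 = 1 := by
  simp [cc]

theorem cc_add (χ : DirichletCharacter ℂ q) (k m : ℕ) : cc χ (q * k + m) = cc χ m := by
  simp [cc]

theorem sum_range_q (f : ZMod q → ℂ) :
    ∑ m ∈ Finset.range q, f (m : ZMod q) = ∑ a : ZMod q, f a := by
  have hq : 0 < q := Nat.pos_of_ne_zero (NeZero.ne q)
  refine Finset.sum_nbij' (fun m => (m : ZMod q)) (fun a => a.val) ?_ ?_ ?_ ?_ ?_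
  · intro a _; exact Finset.mem_univ _
  · intro a _; exact Finset.mem_range.2 (ZMod.val_lt a)
  · intro a ha
    exact ZMod.val_cast_of_lt (Finset.mem_range.1 ha)
  · intro a _
    exact ZMod.natCast_zmod_val a
  · intro a _; rfl

theorem sum_period {χ : DirichletCharacter ℂ q} (h : χ ≠ 1) :
    ∑ m ∈ Finset.range q, cc χ m = 0 := by
  have h1 := sum_range_q (q := q) (fun a => χ a)
  simp only [cc]
  rw [h1]
  exact MulChar.sum_eq_zero_of_ne_one h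

theorem sum_range_mul {χ : DirichletCharacter ℂ q} (h : χ ≠ 1) (k : ℕ) :
    ∑ m ∈ Finset.range (q * k), cc χ m = 0 := by
  induction k with
  | zero => simp
  | succ k ih =>
    rw [mul_add, mul_one, Finset.sum_range_add, ih, zero_add]
    rw [Finset.sum_congr rfl (fun m _ => cc_add χ k m)]
    exact sum_period h

theorem sum_range_mod {χ : DirichletCharacter ℂ q} (h : χ ≠ 1) (N : ℕ) :
    ∑ m ∈ Finset.range N, cc χ m = ∑ m ∈ Finset.range (N % q), cc χ m := by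
  conv_lhs => rw [← Nat.div_add_mod N q]
  rw [Finset.sum_range_add, sum_range_mul h, zero_add]
  exact Finset.sum_congr rfl (fun m _ => cc_add χ _ m)

theorem sum_bounded {χ : DirichletCharacter ℂ q} (h : χ ≠ 1) (N : ℕ) :
    ‖∑ m ∈ Finset.Icc 1 N, cc χ m‖ ≤ q := by
  have h1 : ∑ m ∈ Finset.Icc 1 N, cc χ m = ∑ m ∈ Finset.range (N + 1), cc χ m - cc χ 0 := by
    rw [Finset.range_eq_Ico, Finset.sum_eq_sum_Ico_succ_bot (Nat.succ_pos N)]
    have : Finset.Ico (0 + 1) (N + 1) = Finset.Icc 1 N := by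
      ext x
      rw [Finset.mem_Ico, Finset.mem_Icc]
      omega
    rw [this]
    ring
  rw [h1, sum_range_mod h]
  have hq : (N + 1) % q < q := Nat.mod_lt _ (Nat.pos_of_ne_zero (NeZero.ne q))
  have h2 : ‖∑ m ∈ Finset.range ((N + 1) % q), cc χ m‖ ≤ ((N + 1) % q : ℕ) := by
    refine (norm_sum_le _ _).trans ?_
    refine (Finset.sum_le_sum fun m _ => cc_norm χ m).trans ?_
    simp
  have h3 := cc_norm χ 0
  have h4 := norm_sub_le (∑ m ∈ Finset.range ((N + 1) % q), cc χ m) (cc χ 0)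
  have h5 : (((N + 1) % q : ℕ) : ℝ) + 1 ≤ q := by exact_mod_cast hq
  linarith

theorem abel_step {χ : DirichletCharacter ℂ q} (h : χ ≠ 1) (M k : ℕ) :
    ‖((∑ m ∈ Finset.Icc 1 (M + k), cc χ m / m) -
        (∑ m ∈ Finset.Icc 1 (M + k), cc χ m) / ((M + k : ℕ) + 1 : ℂ)) -
      ((∑ m ∈ Finset.Icc 1 M, cc χ m / m) -
        (∑ m ∈ Finset.Icc 1 M, cc χ m) / (M + 1 : ℂ))‖ ≤
      q * (1 / (M + 1 : ℝ) - 1 / ((M + k : ℕ) + 1 : ℝ)) := by
  induction k with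
  | zero => simp
  | succ k ih =>
    have e1 : Finset.Icc 1 (M + (k + 1)) = insert (M + k + 1) (Finset.Icc 1 (M + k)) := by
      ext x; simp; omega
    have e2 : (M + k + 1) ∉ Finset.Icc 1 (M + k) := by simp
    have hB := sum_bounded h (M + (k + 1))
    have hBdef : ∑ m ∈ Finset.Icc 1 (M + (k + 1)), cc χ m =
        cc χ (M + k + 1) + ∑ m ∈ Finset.Icc 1 (M + k), cc χ m := by
      rw [e1, Finset.sum_insert e2]
    have hbdef : ∑ m ∈ Finset.Icc 1 (M + (k + 1)), cc χ m / m =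
        cc χ (M + k + 1) / ((M + k + 1 : ℕ) : ℂ) +
          ∑ m ∈ Finset.Icc 1 (M + k), cc χ m / m := by
      rw [e1, Finset.sum_insert e2]
    set B1 := ∑ m ∈ Finset.Icc 1 (M + (k + 1)), cc χ m with hB1
    set B0 := ∑ m ∈ Finset.Icc 1 (M + k), cc χ m with hB0
    set b1 := ∑ m ∈ Finset.Icc 1 (M + (k + 1)), cc χ m / m with hb1
    set b0 := ∑ m ∈ Finset.Icc 1 (M + k), cc χ m / m with hb0
    set b := ∑ m ∈ Finset.Icc 1 M, cc χ m / m
    set B := ∑ m ∈ Finset.Icc 1 M, cc χ m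
    push_cast at *
    have hx : (0 : ℝ) < (M : ℝ) + k + 1 := by positivity
    have hx2 : (0 : ℝ) < (M : ℝ) + (k + 1) + 1 := by positivity
    have key : (b1 - B1 / ((M : ℂ) + (k + 1) + 1)) - (b - B / ((M : ℂ) + 1)) =
        ((b0 - B0 / ((M : ℂ) + k + 1)) - (b - B / ((M : ℂ) + 1))) +
          B1 * (((1 / ((M : ℝ) + k + 1) - 1 / ((M : ℝ) + (k + 1) + 1) : ℝ)) : ℂ) := by
      have hchi : cc χ (M + k + 1) = B1 - B0 := by rw [hBdef]; ring
      rw [hbdef, hchi]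
      push_cast
      ring
    rw [key]
    have hd : (0 : ℝ) ≤ 1 / ((M : ℝ) + k + 1) - 1 / ((M : ℝ) + (k + 1) + 1) := by
      rw [sub_nonneg]
      apply one_div_le_one_div_of_le hx
      linarith
    refine (norm_add_le _ _).trans ?_
    rw [norm_mul, Complex.norm_real, Real.norm_eq_abs, abs_of_nonneg hd]
    have := mul_le_mul_of_nonneg_right hB hd
    nlinarith

theorem cauchy_bound {χ : DirichletCharacter ℂ q} (h : χ ≠ 1) (M N : ℕ) (hMN : M ≤ N) :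
    ‖(∑ m ∈ Finset.Icc 1 M, cc χ m / m) - (∑ m ∈ Finset.Icc 1 N, cc χ m / m)‖ ≤
      2 * q / (M + 1) := by
  obtain ⟨k, rfl⟩ := Nat.exists_eq_add_of_le hMN
  have h1 := abel_step h M k
  have h2 := sum_bounded h M
  have h3 := sum_bounded h (M + k)
  set b1 := ∑ m ∈ Finset.Icc 1 (M + k), cc χ m / m
  set B1 := ∑ m ∈ Finset.Icc 1 (M + k), cc χ m
  set b := ∑ m ∈ Finset.Icc 1 M, cc χ m / m
  set B := ∑ m ∈ Finset.Icc 1 M, cc χ m
  have hx : (0 : ℝ) < (M : ℝ) + 1 := by positivity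
  have hx2 : (0 : ℝ) < ((M + k : ℕ) : ℝ) + 1 := by positivity
  have n1 : ‖((M : ℂ) + 1)‖ = (M : ℝ) + 1 := by
    have : ((M : ℂ) + 1) = (((M : ℝ) + 1 : ℝ) : ℂ) := by push_cast; ring
    rw [this, Complex.norm_real, Real.norm_eq_abs, abs_of_pos hx]
  have n2 : ‖(((M + k : ℕ) : ℂ) + 1)‖ = ((M + k : ℕ) : ℝ) + 1 := by
    have : (((M + k : ℕ) : ℂ) + 1) = ((((M + k : ℕ) : ℝ) + 1 : ℝ) : ℂ) := by push_cast; ring
    rw [this, Complex.norm_real, Real.norm_eq_abs, abs_of_pos hx2]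
  have h4 : ‖B / ((M : ℂ) + 1)‖ ≤ q / ((M : ℝ) + 1) := by
    rw [norm_div, n1]
    gcongr
  have h5 : ‖B1 / (((M + k : ℕ) : ℂ) + 1)‖ ≤ q / (((M + k : ℕ) : ℝ) + 1) := by
    rw [norm_div, n2]
    gcongr
  have h6 : b - b1 = -((b1 - B1 / (((M + k : ℕ) : ℂ) + 1)) - (b - B / ((M : ℂ) + 1))) +
      B / ((M : ℂ) + 1) - B1 / (((M + k : ℕ) : ℂ) + 1) := by ring
  rw [h6]
  have h7 := norm_sub_le (-((b1 - B1 / (((M + k : ℕ) : ℂ) + 1)) - (b - B / ((M : ℂ) + 1))) +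
      B / ((M : ℂ) + 1)) (B1 / (((M + k : ℕ) : ℂ) + 1))
  have h8 := norm_add_le (-((b1 - B1 / (((M + k : ℕ) : ℂ) + 1)) - (b - B / ((M : ℂ) + 1))))
      (B / ((M : ℂ) + 1))
  rw [norm_neg] at h8
  have h9 : (q : ℝ) * (1 / (M + 1 : ℝ) - 1 / ((M + k : ℕ) + 1 : ℝ)) =
      q / ((M : ℝ) + 1) - q / (((M + k : ℕ) : ℝ) + 1) := by ring
  have h10 : 2 * (q : ℝ) / ((M : ℝ) + 1) = q / ((M : ℝ) + 1) + q / ((M : ℝ) + 1) := by ring
  rw [h10]
  rw [h9] at h1
  linarith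

theorem exists_L {χ : DirichletCharacter ℂ q} (h : χ ≠ 1) :
    ∃ L : ℂ, ∀ N : ℕ, ‖(∑ m ∈ Finset.Icc 1 N, cc χ m / m) - L‖ ≤ 2 * q / (N + 1) := by
  have h0 : Filter.Tendsto (fun M : ℕ => 2 * (q : ℝ) / (M + 1)) Filter.atTop (nhds 0) := by
    have h1 := (tendsto_one_div_add_atTop_nhds_zero_nat (𝕜 := ℝ)).const_mul (2 * (q : ℝ))
    rw [mul_zero] at h1
    refine h1.congr fun M => ?_
    ring
  have hc : CauchySeq (fun N : ℕ => ∑ m ∈ Finset.Icc 1 N, cc χ m / m) := by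
    apply cauchySeq_of_le_tendsto_0' (fun M : ℕ => 2 * (q : ℝ) / (M + 1)) _ h0
    intro M N hMN
    rw [dist_eq_norm]
    exact cauchy_bound h M N hMN
  obtain ⟨L, hL⟩ := cauchySeq_tendsto_of_complete hc
  refine ⟨L, fun N => ?_⟩
  have h1 : Filter.Tendsto (fun M : ℕ => ‖(∑ m ∈ Finset.Icc 1 N, cc χ m / m) -
      ∑ m ∈ Finset.Icc 1 M, cc χ m / m‖) Filter.atTop
      (nhds ‖(∑ m ∈ Finset.Icc 1 N, cc χ m / m) - L‖) :=
    (tendsto_const_nhds.sub hL).norm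
  apply le_of_tendsto h1
  filter_upwards [Filter.eventually_ge_atTop N] with M hM
  exact cauchy_bound h N M hM

theorem lnz_partial {χ : DirichletCharacter ℂ q} (L : ℂ)
    (hL : ∀ N : ℕ, ‖(∑ m ∈ Finset.Icc 1 N, cc χ m / m) - L‖ ≤ 2 * q / (N + 1))
    (ε : ℝ) (hε : 0 < ε) (N : ℕ) (hN : 1 ≤ N) :
    ‖∑ m ∈ Finset.Icc 1 N, cc χ m / m * (((m : ℝ) ^ (-ε) : ℝ) : ℂ) - L‖ ≤
      2 * q * ε + 2 * q / (N + 1) := by
  have key : ∀ N : ℕ, 1 ≤ N →
      ‖∑ m ∈ Finset.Icc 1 N, cc χ m / m * (((m : ℝ) ^ (-ε) : ℝ) : ℂ) - L +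
        (L - ∑ m ∈ Finset.Icc 1 N, cc χ m / m) * (((N : ℝ) ^ (-ε) : ℝ) : ℂ)‖ ≤
        2 * q * ε * (1 - 1 / N) := by
    intro N hN
    induction N, hN using Nat.le_induction with
    | base => simp
    | succ N hN ih =>
      have hN0 : (0 : ℝ) < N := by exact_mod_cast hN
      rw [Finset.sum_Icc_succ_top (by omega), Finset.sum_Icc_succ_top (by omega)]
      have e1 : ∑ m ∈ Finset.Icc 1 N, cc χ m / m * (((m : ℝ) ^ (-ε) : ℝ) : ℂ) +
          cc χ (N + 1) / ((N + 1 : ℕ) : ℂ) * (((((N + 1 : ℕ) : ℝ) ^ (-ε) : ℝ)) : ℂ) - L +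
          (L - (∑ m ∈ Finset.Icc 1 N, cc χ m / m + cc χ (N + 1) / ((N + 1 : ℕ) : ℂ))) *
            (((((N + 1 : ℕ) : ℝ) ^ (-ε) : ℝ)) : ℂ) =
          (∑ m ∈ Finset.Icc 1 N, cc χ m / m * (((m : ℝ) ^ (-ε) : ℝ) : ℂ) - L +
            (L - ∑ m ∈ Finset.Icc 1 N, cc χ m / m) * (((N : ℝ) ^ (-ε) : ℝ) : ℂ)) -
          ((∑ m ∈ Finset.Icc 1 N, cc χ m / m) - L) *
            (((((N + 1 : ℕ) : ℝ) ^ (-ε) - (N : ℝ) ^ (-ε) : ℝ)) : ℂ) := by
        push_cast
        ring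
      rw [e1]
      refine (norm_sub_le _ _).trans ?_
      rw [norm_mul, Complex.norm_real, Real.norm_eq_abs]
      have h1 : ‖(∑ m ∈ Finset.Icc 1 N, cc χ m / m) - L‖ *
          |((N + 1 : ℕ) : ℝ) ^ (-ε) - (N : ℝ) ^ (-ε)| ≤ 2 * q / (N + 1) * (ε / N) :=
        mul_le_mul (hL N) (Pool.Agent.DL.lnz_weight ε hε N hN) (abs_nonneg _) (by positivity)
      have h2 : 2 * q * ε * (1 - 1 / N) + 2 * q / (N + 1) * (ε / N) =
          2 * q * ε * (1 - 1 / ((N + 1 : ℕ) : ℝ)) := by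
        push_cast
        field_simp
        ring
      linarith
  have h1 := key N hN
  have hN0 : (0 : ℝ) < N := by exact_mod_cast hN
  have hN1 : (1 : ℝ) ≤ N := by exact_mod_cast hN
  have hw : (N : ℝ) ^ (-ε) ≤ 1 := Real.rpow_le_one_of_one_le_of_nonpos hN1 (by linarith)
  have hw0 : 0 ≤ (N : ℝ) ^ (-ε) := Real.rpow_nonneg hN0.le _
  have e1 : ∑ m ∈ Finset.Icc 1 N, cc χ m / m * (((m : ℝ) ^ (-ε) : ℝ) : ℂ) - L =
      (∑ m ∈ Finset.Icc 1 N, cc χ m / m * (((m : ℝ) ^ (-ε) : ℝ) : ℂ) - L +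
        (L - ∑ m ∈ Finset.Icc 1 N, cc χ m / m) * (((N : ℝ) ^ (-ε) : ℝ) : ℂ)) +
      ((∑ m ∈ Finset.Icc 1 N, cc χ m / m) - L) * (((N : ℝ) ^ (-ε) : ℝ) : ℂ) := by ring
  rw [e1]
  refine (norm_add_le _ _).trans ?_
  rw [norm_mul ((∑ m ∈ Finset.Icc 1 N, cc χ m / m) - L), Complex.norm_real, Real.norm_eq_abs,
    abs_of_nonneg hw0]
  have h2 : ‖(∑ m ∈ Finset.Icc 1 N, cc χ m / m) - L‖ * (N : ℝ) ^ (-ε) ≤
      2 * q / (N + 1) * 1 := mul_le_mul (hL N) hw hw0 (by positivity)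
  have h3 : 2 * q * ε * (1 - 1 / (N : ℝ)) ≤ 2 * q * ε := by
    have : 0 ≤ 2 * q * ε * (1 / (N : ℝ)) := by positivity
    have e2 : 2 * q * ε * (1 - 1 / (N : ℝ)) = 2 * q * ε - 2 * q * ε * (1 / (N : ℝ)) := by ring
    linarith
  linarith

theorem L_ne_zero {χ : DirichletCharacter ℂ q} (h : χ ≠ 1) (L : ℂ)
    (hL : ∀ N : ℕ, ‖(∑ m ∈ Finset.Icc 1 N, cc χ m / m) - L‖ ≤ 2 * q / (N + 1)) : L ≠ 0 := by
  have hne := DirichletCharacter.LFunction_apply_one_ne_zero h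
  -- the bound for `s = 1 + ε`
  have hbound : ∀ ε : ℝ, 0 < ε →
      ‖DirichletCharacter.LFunction χ ((1 + ε : ℝ) : ℂ) - L‖ ≤ 2 * q * ε := by
    intro ε hε
    have hs : 1 < (((1 + ε : ℝ) : ℂ)).re := by
      rw [Complex.ofReal_re]; linarith
    rw [DirichletCharacter.LFunction_eq_LSeries χ hs]
    have hsum := (DirichletCharacter.LSeriesSummable_of_one_lt_re χ hs)
    have hts := hsum.hasSum.tendsto_sum_nat
    have hterm : ∀ n : ℕ, LSeries.term (fun n => χ (n : ZMod q)) ((1 + ε : ℝ) : ℂ) n =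
        cc χ n / n * (((n : ℝ) ^ (-ε) : ℝ) : ℂ) := by
      intro n
      rcases Nat.eq_zero_or_pos n with h0 | h0
      · subst h0
        simp
      · have hn0 : (0 : ℝ) < n := by exact_mod_cast h0
        rw [LSeries.term_of_ne_zero (by omega)]
        have e1 : (n : ℂ) ^ ((1 + ε : ℝ) : ℂ) = (((n : ℝ) ^ (1 + ε) : ℝ) : ℂ) := by
          rw [Complex.ofReal_cpow hn0.le]
          simp
        rw [e1]
        have e2 : (n : ℝ) ^ (1 + ε) = n * (n : ℝ) ^ ε := by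
          rw [Real.rpow_add hn0, Real.rpow_one]
        have e3 : (n : ℝ) ^ (-ε) = ((n : ℝ) ^ ε)⁻¹ := Real.rpow_neg hn0.le ε
        have hp : (((n : ℝ) ^ ε : ℝ) : ℂ) ≠ 0 := by
          rw [Ne, Complex.ofReal_eq_zero]
          exact (Real.rpow_pos_of_pos hn0 ε).ne'
        have hn0' : (n : ℂ) ≠ 0 := by exact_mod_cast h0.ne'
        rw [e2, e3]
        simp only [cc]
        rw [Complex.ofReal_mul, Complex.ofReal_inv, Complex.ofReal_natCast]
        field_simp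
    have hS : ∀ N : ℕ, ∑ n ∈ Finset.range (N + 1),
        LSeries.term (fun n => χ (n : ZMod q)) ((1 + ε : ℝ) : ℂ) n =
        ∑ m ∈ Finset.Icc 1 N, cc χ m / m * (((m : ℝ) ^ (-ε) : ℝ) : ℂ) := by
      intro N
      simp_rw [hterm]
      rw [Finset.range_eq_Ico, Finset.sum_eq_sum_Ico_succ_bot (by omega)]
      have : Finset.Ico (0 + 1) (N + 1) = Finset.Icc 1 N := by
        ext x
        simp only [Finset.mem_Ico, Finset.mem_Icc]
        omega
      rw [this]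
      simp
    have hts' := (Filter.tendsto_add_atTop_iff_nat 1).2 hts
    have h3 : Filter.Tendsto (fun N : ℕ =>
        ‖(∑ m ∈ Finset.Icc 1 N, cc χ m / m * (((m : ℝ) ^ (-ε) : ℝ) : ℂ)) - L‖)
        Filter.atTop (nhds ‖LSeries (fun n => χ (n : ZMod q)) ((1 + ε : ℝ) : ℂ) - L‖) := by
      refine (Filter.Tendsto.sub_const ?_ _).norm
      have : (fun N : ℕ => (∑ m ∈ Finset.Icc 1 N, cc χ m / m * (((m : ℝ) ^ (-ε) : ℝ) : ℂ))) =
          fun N : ℕ => ∑ n ∈ Finset.range (N + 1),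
            LSeries.term (fun n => χ (n : ZMod q)) ((1 + ε : ℝ) : ℂ) n := by
        funext N
        exact (hS N).symm
      rw [this]
      exact hts'
    have h4 : Filter.Tendsto (fun N : ℕ => 2 * (q : ℝ) * ε + 2 * q / ((N : ℝ) + 1))
        Filter.atTop (nhds (2 * q * ε + 0)) := by
      refine Filter.Tendsto.add tendsto_const_nhds ?_
      have := (tendsto_one_div_add_atTop_nhds_zero_nat (𝕜 := ℝ)).const_mul (2 * (q : ℝ))
      rw [mul_zero] at this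
      refine this.congr fun N => ?_
      ring
    have h5 := le_of_tendsto_of_tendsto h3 h4 (by
      filter_upwards [Filter.eventually_ge_atTop 1] with N hN
      exact lnz_partial L hL ε hε N hN)
    rw [add_zero] at h5
    exact h5
  -- continuity at `1`
  have hcont : Filter.Tendsto (fun k : ℕ =>
      ‖DirichletCharacter.LFunction χ ((1 + 1 / ((k : ℝ) + 1) : ℝ) : ℂ) - L‖) Filter.atTop
      (nhds ‖DirichletCharacter.LFunction χ 1 - L‖) := by
    refine (Filter.Tendsto.sub_const ?_ _).norm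
    have hc : ContinuousAt (DirichletCharacter.LFunction χ) 1 :=
      (DirichletCharacter.differentiable_LFunction h 1).continuousAt
    refine hc.tendsto.comp ?_
    have h1 : Filter.Tendsto (fun k : ℕ => (1 + 1 / ((k : ℝ) + 1) : ℝ)) Filter.atTop
        (nhds (1 + 0)) := Filter.Tendsto.add tendsto_const_nhds
          (tendsto_one_div_add_atTop_nhds_zero_nat (𝕜 := ℝ))
    rw [add_zero] at h1
    have h2 := (Complex.continuous_ofReal.tendsto 1).comp h1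
    rw [Complex.ofReal_one] at h2
    exact h2
  have hzero : Filter.Tendsto (fun k : ℕ => 2 * (q : ℝ) * (1 / ((k : ℝ) + 1))) Filter.atTop
      (nhds 0) := by
    have := (tendsto_one_div_add_atTop_nhds_zero_nat (𝕜 := ℝ)).const_mul (2 * (q : ℝ))
    rwa [mul_zero] at this
  have hle := le_of_tendsto_of_tendsto' hcont hzero (fun k => hbound _ (by positivity))
  have heq : DirichletCharacter.LFunction χ 1 = L :=
    sub_eq_zero.1 (norm_le_zero_iff.1 hle)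
  intro hL0
  apply hne
  rw [heq, hL0]

end Pool.Agent.Helper17.CY
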